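import Pool.Agent.Q181.AS.Trace

set_option autoImplicit false

namespace Pool.Agent.Q181.AS

open Filter Dynamics Topology MeasureTheory

variable {X : Type*} [PseudoMetricSpace X]

/-- the stage of an index -/
def stage (t : ℕ → ℕ) (i : ℕ) : ℕ := Nat.findGreatest (fun k => t k ≤ i) i

lemma stage_eq {t : ℕ → ℕ} (ht : StrictMono t) {k i : ℕ} (h1 : t k ≤ i) (h2 : i < t (k + 1)) :
    stage t i = k := by
  unfold stage
  rw [Nat.findGreatest_eq_iff]
  refine ⟨(ht.le_apply).trans h1, fun _ => h1, fun n hn _ hle => ?_⟩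
  have : t (k + 1) ≤ t n := ht.monotone hn
  omega

/-- the asymptotic average shadowing property implies the average shadowing property -/
theorem AASP.asp [CompactSpace X] {f : X → X} (hf : Continuous f) {D : ℝ} (hD0 : 0 < D)
    (hD : ∀ a b : X, dist a b ≤ D) (h : AASP f) : ASP f := by
  by_contra hcon
  unfold ASP at hcon
  push Not at hcon
  obtain ⟨ε, hε, hcon⟩ := hcon
  -- the bad pseudo-orbits
  choose x hx1 hx2 using fun k : ℕ => hcon (1 / ((k : ℝ) + 1)) (by positivity)
  choose N hN using hx1
  have hdn : ∀ (y : X) (ξ : ℕ → X) n, avg (fun i => dist (f^[i] y) (ξ i)) n ≤ D := fun y ξ =>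
    avg_le hD0.le (fun i => hD _ _)
  -- uniform failure of shadowing
  have hfail : ∀ k n0 : ℕ, ∃ M, ∀ y : X, ∃ n, n0 ≤ n ∧ n ≤ M ∧
      ε / 2 < avg (fun i => dist (f^[i] y) (x k i)) n := by
    intro k n0
    set U : ℕ → Set X := fun M => {y | ∃ n, n0 ≤ n ∧ n ≤ M ∧
      ε / 2 < avg (fun i => dist (f^[i] y) (x k i)) n} with hU
    have hUo : ∀ M, IsOpen (U M) := by
      intro M
      have : U M = ⋃ n ∈ {n | n0 ≤ n ∧ n ≤ M},
          {y | ε / 2 < avg (fun i => dist (f^[i] y) (x k i)) n} := by
        ext y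
        simp only [hU, Set.mem_iUnion, Set.mem_ofPred_eq, exists_prop, and_assoc]
      rw [this]
      apply isOpen_biUnion
      intro n _
      apply isOpen_lt continuous_const
      unfold avg
      apply Continuous.mul continuous_const
      apply continuous_finsetSum
      intro i _
      exact (hf.iterate i).dist continuous_const
    have hUc : (Set.univ : Set X) ⊆ ⋃ M, U M := by
      intro y _
      by_contra hy
      simp only [hU, Set.mem_iUnion, Set.mem_ofPred_eq, not_exists, not_and, not_lt] at hy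
      apply hx2 k y
      unfold AvgShadowed
      refine lt_of_le_of_lt ?_ (half_lt_self hε)
      apply limsup_le_of_le
      · exact isCoboundedUnder_le_of_le _ (avg_nonneg fun i => dist_nonneg)
      · filter_upwards [eventually_ge_atTop n0] with n hn
        exact hy n n hn le_rfl
    have hUm : Monotone U := by
      intro a b hab y hy
      obtain ⟨n, h1, h2, h3⟩ := hy
      exact ⟨n, h1, h2.trans hab, h3⟩
    obtain ⟨M, hM⟩ := isCompact_univ.elim_directed_cover U hUo hUc hUm.directed_le
    exact ⟨M, fun y => hM (Set.mem_univ y)⟩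
  choose M hM using hfail
  -- the lengths of the stages
  obtain ⟨Dn, hDn⟩ := exists_nat_ge D
  set step : ℕ → ℕ → ℕ := fun k a =>
    M k a + (k + 1) * ((Dn + 1) * (a + N k + N (k + 1) + 2)) with hstep
  set t : ℕ → ℕ := fun k => Nat.rec 0 (fun k a => a + step k a) k with ht
  have ht0 : t 0 = 0 := rfl
  have hts : ∀ k, t (k + 1) = t k + step k (t k) := fun k => rfl
  have hstep_pos : ∀ k a, 0 < step k a := by
    intro k a
    simp only [hstep]
    positivity
  have htm : StrictMono t := by
    apply strictMono_nat_of_lt_succ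
    intro k
    rw [hts]
    exact Nat.lt_add_of_pos_right (hstep_pos _ _)
  set ξ : ℕ → X := fun i => x (stage t i) (i - t (stage t i)) with hξ
  have hξe : ∀ k r, r < step k (t k) → ξ (t k + r) = x k r := by
    intro k r hr
    have h1 : stage t (t k + r) = k := by
      apply stage_eq htm (Nat.le_add_right _ _)
      rw [hts]; omega
    simp only [hξ, h1, Nat.add_sub_cancel_left]
  -- the errors
  set e : ℕ → ℝ := fun i => dist (f (ξ i)) (ξ (i + 1)) with he
  have he0 : ∀ i, 0 ≤ e i := fun i => dist_nonneg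
  have heD : ∀ i, e i ≤ D := fun i => hD _ _
  set S : ℕ → ℝ := fun n => ∑ i ∈ Finset.range n, e i with hS
  have hSa : ∀ a r, S (a + r) = S a + ∑ i ∈ Finset.range r, e (a + i) := fun a r =>
    Finset.sum_range_add e a r
  -- errors inside a stage
  have hin : ∀ k r, r ≤ step k (t k) →
      ∑ i ∈ Finset.range r, e (t k + i) ≤ r / ((k : ℝ) + 1) + (N k + 1) * D := by
    intro k r hr
    -- all but the last step are steps of the pseudo-orbit
    have h1 : ∀ i, i + 1 < step k (t k) → e (t k + i) = dist (f (x k i)) (x k (i + 1)) := by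
      intro i hi
      simp only [he]
      rw [hξe k i (by omega), add_assoc, hξe k (i + 1) hi]
    have h2 : ∀ s, s < step k (t k) →
        ∑ i ∈ Finset.range s, e (t k + i) ≤ s / ((k : ℝ) + 1) + N k * D := by
      intro s hs
      rcases lt_or_ge s (N k) with h3 | h3
      · have : ∑ i ∈ Finset.range s, e (t k + i) ≤ s * D := by
          calc _ ≤ ∑ i ∈ Finset.range s, D := Finset.sum_le_sum fun i _ => heD _
            _ = s * D := by rw [Finset.sum_const, Finset.card_range, nsmul_eq_mul]
        have h4 : (s : ℝ) * D ≤ N k * D := by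
          apply mul_le_mul_of_nonneg_right _ hD0.le
          exact_mod_cast h3.le
        have h5 : (0 : ℝ) ≤ s / ((k : ℝ) + 1) := by positivity
        linarith
      · have h4 := hN k s h3 0
        simp only [add_zero] at h4
        have h5 : ∑ i ∈ Finset.range s, e (t k + i)
            = ∑ i ∈ Finset.range s, dist (f (x k i)) (x k (i + 1)) := by
          apply Finset.sum_congr rfl
          intro i hi
          have := Finset.mem_range.1 hi
          exact h1 i (by omega)
        rw [h5]
        rcases Nat.eq_zero_or_pos s with rfl | hsp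
        · simp
          positivity
        · have hsp' : (0 : ℝ) < s := by exact_mod_cast hsp
          unfold avg at h4
          rw [one_div, inv_mul_lt_iff₀ hsp'] at h4
          have h6 : (0 : ℝ) ≤ N k * D := by positivity
          have h7 : (s : ℝ) * (1 / ((k : ℝ) + 1)) = s / ((k : ℝ) + 1) := by ring
          linarith
    rcases Nat.eq_zero_or_pos r with rfl | hrp
    · simp
      positivity
    · obtain ⟨s, rfl⟩ : ∃ s, r = s + 1 := ⟨r - 1, by omega⟩
      rw [Finset.sum_range_succ]
      have h3 := h2 s (by omega)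
      have h4 := heD (t k + s)
      have h5 : (s : ℝ) / ((k : ℝ) + 1) ≤ ((s + 1 : ℕ) : ℝ) / ((k : ℝ) + 1) := by
        apply div_le_div_of_nonneg_right _ (by positivity)
        push_cast
        linarith
      linarith
  -- bound at the end of a stage
  have hbig : ∀ k : ℕ, ((k : ℝ) + 1) * (D * t k + (N k + 1) * D + (N (k + 1) + 1) * D) ≤
      step k (t k) := by
    intro k
    have h1 : (((k + 1) * ((Dn + 1) * (t k + N k + N (k + 1) + 2)) : ℕ) : ℝ) ≤ step k (t k) := by
      exact_mod_cast Nat.le_add_left _ _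
    refine le_trans ?_ h1
    push_cast
    apply mul_le_mul_of_nonneg_left _ (by positivity)
    have h2 : D ≤ (Dn : ℝ) + 1 := by linarith
    have h3 : D * t k + (N k + 1) * D + (N (k + 1) + 1) * D
        = D * (t k + N k + N (k + 1) + 2) := by ring
    rw [h3]
    exact mul_le_mul_of_nonneg_right h2 (by positivity)
  have hend : ∀ k, S (t (k + 1)) + (N (k + 1) + 1) * D ≤ 2 * t (k + 1) / ((k : ℝ) + 1) := by
    intro k
    rw [hts, hSa]
    have h1 := hin k (step k (t k)) le_rfl
    have h2 : S (t k) ≤ t k * D := by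
      calc _ ≤ ∑ i ∈ Finset.range (t k), D := Finset.sum_le_sum fun i _ => heD _
        _ = t k * D := by rw [Finset.sum_const, Finset.card_range, nsmul_eq_mul]
    have h3 := hbig k
    have hk : (0 : ℝ) < (k : ℝ) + 1 := by positivity
    have h4 : D * t k + (N k + 1) * D + (N (k + 1) + 1) * D ≤ step k (t k) / ((k : ℝ) + 1) := by
      rw [le_div_iff₀ hk]
      linarith
    have h5 : 2 * ((t k + step k (t k) : ℕ) : ℝ) / ((k : ℝ) + 1)
        = 2 * t k / ((k : ℝ) + 1) + step k (t k) / ((k : ℝ) + 1)
          + step k (t k) / ((k : ℝ) + 1) := by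
      push_cast
      ring
    have h6 : (0 : ℝ) ≤ 2 * t k / ((k : ℝ) + 1) := by positivity
    rw [h5]
    linarith
  -- bound for all times
  have hall : ∀ k n, t (k + 1) ≤ n → n ≤ t (k + 2) → S n ≤ 3 * n / ((k : ℝ) + 1) := by
    intro k n h1 h2
    obtain ⟨r, rfl⟩ := Nat.exists_eq_add_of_le h1
    rw [hts (k + 1)] at h2
    rw [hSa]
    have h3 := hin (k + 1) r (by omega)
    have h4 := hend k
    have hk : (0 : ℝ) < (k : ℝ) + 1 := by positivity
    have h5 : (r : ℝ) / (((k + 1 : ℕ) : ℝ) + 1) ≤ r / ((k : ℝ) + 1) := by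
      apply div_le_div_of_nonneg_left (by positivity) hk
      push_cast
      linarith
    have h6 : 3 * ((t (k + 1) + r : ℕ) : ℝ) / ((k : ℝ) + 1)
        = 2 * t (k + 1) / ((k : ℝ) + 1) + r / ((k : ℝ) + 1) + t (k + 1) / ((k : ℝ) + 1)
          + 2 * r / ((k : ℝ) + 1) := by
      push_cast
      ring
    have h7 : (0 : ℝ) ≤ t (k + 1) / ((k : ℝ) + 1) := by positivity
    have h8 : (0 : ℝ) ≤ 2 * r / ((k : ℝ) + 1) := by positivity
    rw [h6]
    linarith
  have htend : Tendsto (avg fun i => dist (f (ξ i)) (ξ (i + 1))) atTop (𝓝 0) := by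
    rw [Metric.tendsto_atTop]
    intro η hη
    obtain ⟨K, hK⟩ := exists_nat_gt (3 / η)
    refine ⟨t (K + 1), fun n hn => ?_⟩
    rw [Real.dist_eq, sub_zero, abs_of_nonneg (avg_nonneg he0 n)]
    have htK : 0 < t (K + 1) := by
      have := htm (Nat.succ_pos K)
      omega
    have hnp : 0 < n := by omega
    have hnp' : (0 : ℝ) < n := by exact_mod_cast hnp
    -- find the stage
    obtain ⟨j, hj1, hj2⟩ : ∃ j, t j ≤ n ∧ n < t (j + 1) := by
      have hex : ∃ j, n < t (j + 1) := ⟨n, lt_of_lt_of_le (Nat.lt_succ_self n) htm.le_apply⟩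
      refine ⟨Nat.find hex, ?_, Nat.find_spec hex⟩
      rcases Nat.eq_zero_or_pos (Nat.find hex) with h0 | h0
      · rw [h0, ht0]; exact Nat.zero_le _
      · have := Nat.find_min hex (m := Nat.find hex - 1) (by omega)
        rw [Nat.sub_add_cancel h0] at this
        omega
    have hjK : K + 1 ≤ j := by
      by_contra hlt
      have : t (j + 1) ≤ t (K + 1) := htm.monotone (show j + 1 ≤ K + 1 by omega)
      omega
    obtain ⟨k, rfl⟩ : ∃ k, j = k + 1 := ⟨j - 1, by omega⟩
    have h1 := hall k n hj1 hj2.le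
    unfold avg
    rw [one_div, inv_mul_lt_iff₀ hnp']
    refine h1.trans_lt ?_
    have hk : (K : ℝ) < (k : ℝ) + 1 := by
      have : K ≤ k := by omega
      have : (K : ℝ) ≤ k := by exact_mod_cast this
      linarith
    have hk0 : (0 : ℝ) < (k : ℝ) + 1 := by positivity
    rw [div_lt_iff₀ hk0]
    have h2 : 3 < η * K := by
      rw [div_lt_iff₀ hη] at hK
      linarith
    have h3 : 3 < η * ((k : ℝ) + 1) := by nlinarith
    have h4 := mul_lt_mul_of_pos_left h3 hnp'
    linarith
  obtain ⟨y, hy⟩ := h ξ htend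
  have h1 := hy.eventually (gt_mem_nhds (show (0 : ℝ) < ε / 8 by positivity))
  obtain ⟨n1, hn1⟩ := eventually_atTop.1 h1
  -- choose a late stage
  set k := n1 + 1 with hk
  have htk : n1 + 1 ≤ t k := htm.le_apply
  obtain ⟨n, hn2, hn3, hn4⟩ := hM k (t k) (f^[t k] y)
  have hns : n ≤ step k (t k) := hn3.trans (Nat.le_add_right _ _)
  have htkp : 0 < t k := by omega
  have hnp : (0 : ℝ) < n := by exact_mod_cast (by omega : 0 < n)
  have h2 := hn1 (t k + n) (by omega)
  have h3 : ∑ i ∈ Finset.range n, dist (f^[i] (f^[t k] y)) (x k i)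
      ≤ ∑ i ∈ Finset.range (t k + n), dist (f^[i] y) (ξ i) := by
    rw [Finset.sum_range_add]
    have h4 : ∑ i ∈ Finset.range n, dist (f^[i] (f^[t k] y)) (x k i)
        = ∑ i ∈ Finset.range n, dist (f^[t k + i] y) (ξ (t k + i)) := by
      apply Finset.sum_congr rfl
      intro i hi
      rw [hξe k i (lt_of_lt_of_le (Finset.mem_range.1 hi) hns), ← Function.iterate_add_apply,
        add_comm i]
    rw [h4]
    exact le_add_of_nonneg_left (Finset.sum_nonneg fun i _ => dist_nonneg)
  unfold avg at hn4 h2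
  rw [one_div, inv_mul_lt_iff₀ (by positivity)] at h2
  rw [one_div, lt_inv_mul_iff₀ hnp] at hn4
  have h5 : ((t k + n : ℕ) : ℝ) ≤ 2 * n := by
    have : (t k : ℝ) ≤ n := by exact_mod_cast hn2
    push_cast
    linarith
  nlinarith

end Pool.Agent.Q181.AS
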