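import Pool.Agent.Q181.AS.Asym

set_option autoImplicit false

namespace Pool.Agent.Q181.AS

open Filter Dynamics Topology MeasureTheory

variable {X : Type*} [MetricSpace X] [CompactSpace X] [MeasurableSpace X] [BorelSpace X]

/-- pairs of separated orbits from an invariant measure with two separated charged sets -/
theorem pairs_of_measure {f : X → X} (μ : Measure X) [IsProbabilityMeasure μ]
    (hμ : MeasurePreserving f μ μ) {U V : Set X} (hU : IsOpen U) (hV : IsOpen V)
    (hUV : Disjoint U V) (h1 : μ U ≠ 0) (h2 : μ V ≠ 0) : ∃ c > 0, Pairs f c := by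
  set c : ℝ := ∫ p : X × X, dist p.1 p.2 ∂(μ.prod μ) with hc
  have hcont : Continuous fun p : X × X => dist p.1 p.2 := continuous_dist
  have hint : Integrable (fun p : X × X => dist p.1 p.2) (μ.prod μ) :=
    hcont.integrable_of_hasCompactSupport (HasCompactSupport.of_compactSpace _)
  refine ⟨c, ?_, ?_⟩
  · rw [hc, gt_iff_lt, integral_pos_iff_support_of_nonneg (fun _ => dist_nonneg) hint]
    have h3 : U ×ˢ V ⊆ Function.support fun p : X × X => dist p.1 p.2 := by
      rintro ⟨a, b⟩ ⟨ha, hb⟩
      rw [Function.mem_support]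
      have : a ≠ b := fun h => Set.disjoint_left.1 hUV ha (h ▸ hb)
      exact (dist_pos.2 this).ne'
    refine lt_of_lt_of_le ?_ (measure_mono h3)
    rw [Measure.prod_prod]
    exact ENNReal.mul_pos h1 h2
  · intro L hL
    have hL' : (0 : ℝ) < L := by exact_mod_cast hL
    have hF : ∀ i : ℕ, MeasurePreserving (Prod.map f^[i] f^[i]) (μ.prod μ) (μ.prod μ) := fun i =>
      (hμ.iterate i).prod (hμ.iterate i)
    have hi : ∀ i : ℕ, Integrable (fun p : X × X => dist (f^[i] p.1) (f^[i] p.2)) (μ.prod μ) := by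
      intro i
      exact ((hF i).integrable_comp hint.aestronglyMeasurable).2 hint
    have hv : ∀ i : ℕ, ∫ p : X × X, dist (f^[i] p.1) (f^[i] p.2) ∂(μ.prod μ) = c := by
      intro i
      have h4 := integral_map (μ := μ.prod μ) (φ := Prod.map f^[i] f^[i])
        (hF i).measurable.aemeasurable (f := fun p : X × X => dist p.1 p.2)
        (by rw [(hF i).map_eq]; exact hint.aestronglyMeasurable)
      rw [(hF i).map_eq] at h4
      exact h4.symm
    obtain ⟨p, hp⟩ := exists_integral_le (μ := μ.prod μ)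
      (f := fun p : X × X => ∑ i ∈ Finset.range L, dist (f^[i] p.1) (f^[i] p.2))
      (integrable_finsetSum _ fun i _ => hi i)
    refine ⟨p.1, p.2, ?_⟩
    rw [integral_finsetSum _ fun i _ => hi i] at hp
    simp only [hv, Finset.sum_const, Finset.card_range, nsmul_eq_mul] at hp
    linarith

/-- full measure center gives pairs -/
theorem pairs_of_center [Nontrivial X] {f : X → X} (hc : measureCenter f = Set.univ) :
    ∃ c > 0, Pairs f c := by
  obtain ⟨a, b, hab⟩ := exists_pair_ne X
  obtain ⟨U, V, hU, hV, ha, hb, hUV⟩ := t2_separation hab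
  have hex : ∀ W : Set X, IsOpen W → W.Nonempty → ∃ μ : Measure X, IsProbabilityMeasure μ ∧
      MeasurePreserving f μ μ ∧ μ W ≠ 0 := by
    intro W hW hne
    by_contra hcon
    push Not at hcon
    obtain ⟨w, hw⟩ := hne
    have h1 : w ∈ measureCenter f := by rw [hc]; exact Set.mem_univ _
    apply h1
    exact ⟨W, ⟨hW, hcon⟩, hw⟩
  obtain ⟨μ, hμ1, hμ2, hμ3⟩ := hex U hU ⟨a, ha⟩
  obtain ⟨ν, hν1, hν2, hν3⟩ := hex V hV ⟨b, hb⟩
  set ρ : Measure X := (2⁻¹ : ENNReal) • (μ + ν) with hρ
  have hP : IsProbabilityMeasure ρ := by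
    constructor
    rw [hρ, Measure.smul_apply, Measure.add_apply, measure_univ, measure_univ, smul_eq_mul,
      one_add_one_eq_two]
    exact ENNReal.inv_mul_cancel (by norm_num) (by norm_num)
  have hM : MeasurePreserving f ρ ρ := by
    refine ⟨hμ2.measurable, ?_⟩
    rw [hρ, Measure.map_smul, Measure.map_add _ _ hμ2.measurable, hμ2.map_eq, hν2.map_eq]
  apply pairs_of_measure ρ hM hU hV hUV
  · rw [hρ, Measure.smul_apply, Measure.add_apply, smul_eq_mul]
    apply mul_ne_zero (by norm_num)
    intro h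
    exact hμ3 (add_eq_zero.1 h).1
  · rw [hρ, Measure.smul_apply, Measure.add_apply, smul_eq_mul]
    apply mul_ne_zero (by norm_num)
    intro h
    exact hν3 (add_eq_zero.1 h).2

/-- positive entropy -/
theorem entropy_pos_of_center [Nontrivial X] {f : X → X} (hf : Continuous f)
    (hP : ASP f ∨ AASP f ∨ AlmostSpecification f) (hc : measureCenter f = Set.univ) :
    0 < coverEntropy f Set.univ := by
  obtain ⟨c, hc0, hpairs⟩ := pairs_of_center hc
  obtain ⟨D, hD⟩ : ∃ D : ℝ, ∀ a b : X, dist a b ≤ D :=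
    ⟨Metric.diam (Set.univ : Set X), fun a b =>
      Metric.dist_le_diam_of_mem isCompact_univ.isBounded (Set.mem_univ a) (Set.mem_univ b)⟩
  have hD' : ∀ a b : X, dist a b ≤ |D| + 1 := fun a b => by
    have := le_abs_self D
    linarith [hD a b]
  have hD0 : 0 < |D| + 1 := by positivity
  apply entropy_pos_of_traces hc0 hpairs
  rcases hP with hP | hP | hP
  · exact hP.traces hD0 hD' (by positivity)
  · exact (hP.asp hf hD0 hD').traces hD0 hD' (by positivity)
  · exact hP.traces hD0 hD' (by positivity)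

end Pool.Agent.Q181.AS
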