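import Mathlib

set_option autoImplicit false

namespace Pool.Agent.Q181.AS

open Finset

/-- generating function of the Hamming distance -/
lemma sum_pow_hamming (m : ℕ) (w : Fin m → Bool) (l : ℝ) :
    ∑ u : Fin m → Bool, l ^ hammingDist u w = (1 + l) ^ m := by
  have h1 : ∀ u : Fin m → Bool, l ^ hammingDist u w = ∏ i, (if u i ≠ w i then l else 1) := by
    intro u
    rw [Finset.prod_ite, Finset.prod_const_one, mul_one, Finset.prod_const]
    rfl
  simp only [h1]
  have h2 := Finset.prod_univ_sum (fun _ : Fin m => (Finset.univ : Finset Bool))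
    (fun i b => if b ≠ w i then l else 1)
  rw [Fintype.piFinset_univ] at h2
  rw [← h2]
  have h3 : ∀ i : Fin m, ∑ b : Bool, (if b ≠ w i then l else 1) = 1 + l := by
    intro i
    rw [Fintype.sum_bool]
    cases w i <;> simp [add_comm]
  simp only [h3, Finset.prod_const, Finset.card_univ, Fintype.card_fin]

/-- the number of words close to a given word -/
lemma ball_card (m : ℕ) (w : Fin m → Bool) :
    ((univ.filter fun u : Fin m → Bool => 8 * hammingDist u w ≤ m).card : ℝ) ≤ (20 / 13) ^ m := by
  set r : ℝ := 23 / 20 with hr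
  have hr0 : 0 < r := by norm_num
  have hr1 : 1 ≤ r := by norm_num
  calc ((univ.filter fun u : Fin m → Bool => 8 * hammingDist u w ≤ m).card : ℝ)
      = ∑ u ∈ univ.filter (fun u : Fin m → Bool => 8 * hammingDist u w ≤ m), (1 : ℝ) := by simp
    _ ≤ ∑ u ∈ univ.filter (fun u : Fin m → Bool => 8 * hammingDist u w ≤ m),
          r ^ m * ((r⁻¹) ^ 8) ^ hammingDist u w := by
        apply Finset.sum_le_sum
        intro u hu
        rw [Finset.mem_filter] at hu
        rw [← pow_mul, inv_pow, ← div_eq_mul_inv, one_le_div (by positivity)]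
        exact pow_le_pow_right₀ hr1 hu.2
    _ ≤ ∑ u : Fin m → Bool, r ^ m * ((r⁻¹) ^ 8) ^ hammingDist u w := by
        apply Finset.sum_le_sum_of_subset_of_nonneg (Finset.filter_subset _ _)
        intro u _ _
        positivity
    _ = (r * (1 + (r⁻¹) ^ 8)) ^ m := by
        rw [← Finset.mul_sum, sum_pow_hamming, mul_pow]
    _ ≤ (20 / 13) ^ m := by
        apply pow_le_pow_left₀ (by positivity)
        rw [hr]
        norm_num

/-- Gilbert-Varshamov: an exponentially large code of positive relative distance -/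
lemma exists_code (m : ℕ) : ∃ W : Finset (Fin m → Bool),
    (∀ w ∈ W, ∀ w' ∈ W, w ≠ w' → m < 8 * hammingDist w w') ∧ ((13 : ℝ) / 10) ^ m ≤ W.card := by
  classical
  -- a maximal code
  obtain ⟨W, hW, hmax⟩ := Finset.exists_maximal
    (s := (univ : Finset (Finset (Fin m → Bool))).filter
      fun W => ∀ w ∈ W, ∀ w' ∈ W, w ≠ w' → m < 8 * hammingDist w w')
    ⟨∅, by simp⟩
  rw [Finset.mem_filter] at hW
  refine ⟨W, hW.2, ?_⟩
  have hcov : ∀ u : Fin m → Bool, ∃ w ∈ W, 8 * hammingDist u w ≤ m := by
    intro u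
    by_contra hcon
    push Not at hcon
    have h1 : insert u W ∈ (univ : Finset (Finset (Fin m → Bool))).filter
      fun W => ∀ w ∈ W, ∀ w' ∈ W, w ≠ w' → m < 8 * hammingDist w w' := by
      rw [Finset.mem_filter]
      refine ⟨Finset.mem_univ _, ?_⟩
      intro w hw w' hw' hne
      rw [Finset.mem_insert] at hw hw'
      rcases hw with rfl | hw
      · rcases hw' with rfl | hw'
        · exact absurd rfl hne
        · exact hcon w' hw'
      · rcases hw' with rfl | hw'
        · rw [hammingDist_comm]
          exact hcon w hw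
        · exact hW.2 w hw w' hw' hne
    have h2 := hmax h1 (Finset.subset_insert u W)
    have h3 : u ∈ W := h2 (Finset.mem_insert_self u W)
    have h4 := hcon u h3
    rw [hammingDist_self] at h4
    omega
  have h1 : (2 : ℝ) ^ m ≤ W.card * (20 / 13) ^ m := by
    have h2 : (univ : Finset (Fin m → Bool)) ⊆
        W.biUnion fun w => univ.filter fun u : Fin m → Bool => 8 * hammingDist u w ≤ m := by
      intro u _
      obtain ⟨w, hw, huw⟩ := hcov u
      rw [Finset.mem_biUnion]
      exact ⟨w, hw, by simp [huw]⟩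
    have h3 := (Finset.card_le_card h2).trans Finset.card_biUnion_le
    rw [Finset.card_univ, Fintype.card_fun, Fintype.card_bool, Fintype.card_fin] at h3
    have h4 : ((2 ^ m : ℕ) : ℝ) ≤ ∑ w ∈ W,
        ((univ.filter fun u : Fin m → Bool => 8 * hammingDist u w ≤ m).card : ℝ) := by
      exact_mod_cast h3
    push_cast at h4
    calc (2 : ℝ) ^ m ≤ _ := h4
      _ ≤ ∑ w ∈ W, ((20 : ℝ) / 13) ^ m := Finset.sum_le_sum fun w _ => ball_card m w
      _ = W.card * (20 / 13) ^ m := by rw [Finset.sum_const, nsmul_eq_mul]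
  have h5 : (2 : ℝ) ^ m = (13 / 10) ^ m * (20 / 13) ^ m := by
    rw [← mul_pow]; norm_num
  rw [h5] at h1
  exact le_of_mul_le_mul_right h1 (by positivity)

end Pool.Agent.Q181.AS
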