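import Pool.Agent.Q181.AS.Code

set_option autoImplicit false

namespace Pool.Agent.Q181.AS

open Filter Dynamics Topology Uniformity

variable {X : Type*} [PseudoMetricSpace X]

/-- exponentially many separated orbits force positive entropy -/
theorem entropy_pos (f : X → X) {L : ℕ} (hL : 0 < L) {η : ℝ} (hη : 0 < η)
    (h : ∀ m : ℕ, 0 < m → ∃ p : (Fin m → Bool) → X, ∀ w w', m < 8 * hammingDist w w' →
      ∃ i < m * L, η ≤ dist (f^[i] (p w)) (f^[i] (p w'))) :
    0 < coverEntropy f Set.univ := by
  classical
  set U : SetRel X X := {p | dist p.1 p.2 < η / 2} with hU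
  have hUu : U ∈ 𝓤 X := Metric.dist_mem_uniformity (half_pos hη)
  refine lt_of_lt_of_le ?_ (netEntropyEntourage_le_coverEntropy f Set.univ hUu)
  set a : ℝ := Real.log (13 / 10) / L with ha
  have hapos : 0 < a := by
    apply div_pos (Real.log_pos (by norm_num))
    exact_mod_cast hL
  have key : ((a : ℝ) : EReal) ≤ netEntropyEntourage f Set.univ U := by
    apply _root_.Frequently.le_expGrowthSup
    rw [Filter.frequently_atTop]
    intro N
    refine ⟨(N + 1) * L, ?_, ?_⟩
    · nlinarith
    · obtain ⟨W, hW1, hW2⟩ := exists_code (N + 1)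
      obtain ⟨p, hp⟩ := h (N + 1) (Nat.succ_pos N)
      have hinj : Set.InjOn p (W : Set (Fin (N + 1) → Bool)) := by
        intro w hw w' hw' heq
        by_contra hne
        obtain ⟨i, _, hi⟩ := hp w w' (hW1 w hw w' hw' hne)
        rw [heq, dist_self] at hi
        linarith
      have hnet : IsDynNetIn f Set.univ U ((N + 1) * L) (W.image p : Finset X) := by
        refine ⟨Set.subset_univ _, ?_⟩
        intro y hy y' hy' hne
        rw [Finset.coe_image] at hy hy'
        obtain ⟨w, hw, rfl⟩ := hy
        obtain ⟨w', hw', rfl⟩ := hy'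
        have hne' : w ≠ w' := fun h => hne (by rw [h])
        obtain ⟨i, hi1, hi2⟩ := hp w w' (hW1 w hw w' hw' hne')
        rw [Function.onFun, Set.disjoint_left]
        intro z hz hz'
        have h1 : dist (f^[i] (p w)) (f^[i] z) < η / 2 := by
          have := (mem_ball_dynEntourage (U := U)).1 hz i hi1
          exact this
        have h2 : dist (f^[i] (p w')) (f^[i] z) < η / 2 := by
          have := (mem_ball_dynEntourage (U := U)).1 hz' i hi1
          exact this
        have h3 := dist_triangle_right (f^[i] (p w)) (f^[i] (p w')) (f^[i] z)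
        linarith
      have hcard := hnet.card_le_netMaxcard
      rw [Finset.card_image_of_injOn hinj] at hcard
      have h4 : EReal.exp (((a : ℝ) : EReal) * (((N + 1) * L : ℕ) : EReal)) ≤ (W.card : ENNReal) := by
        have e1 : ((a : ℝ) : EReal) * (((N + 1) * L : ℕ) : EReal)
            = ((Real.log ((13 / 10) ^ (N + 1)) : ℝ) : EReal) := by
          have : (((N + 1) * L : ℕ) : EReal) = ((((N + 1) * L : ℕ) : ℝ) : EReal) := by
            simp
          rw [this, ← EReal.coe_mul]
          congr 1
          rw [ha, Real.log_pow]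
          have : (L : ℝ) ≠ 0 := by exact_mod_cast hL.ne'
          push_cast
          field_simp
        rw [e1, EReal.exp_coe, Real.exp_log (by positivity)]
        rw [← ENNReal.ofReal_natCast]
        exact ENNReal.ofReal_le_ofReal hW2
      refine h4.trans ?_
      exact_mod_cast hcard
  refine lt_of_lt_of_le ?_ key
  exact_mod_cast hapos

end Pool.Agent.Q181.AS
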