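import Pool.Agent.Q181.AS.Ent

set_option autoImplicit false

namespace Pool.Agent.Q181.AS

open Filter Dynamics Topology MeasureTheory

section defs

variable {X : Type*} [PseudoMetricSpace X]

/-- The average of `a 0, …, a (n-1)`. -/
noncomputable def avg (a : ℕ → ℝ) (n : ℕ) : ℝ := (1 / (n : ℝ)) * ∑ i ∈ Finset.range n, a i

/-- `ξ` is a `δ`-average-pseudo-orbit. -/
def AvgPseudoOrbit (f : X → X) (δ : ℝ) (ξ : ℕ → X) : Prop :=
  ∃ N : ℕ, ∀ n ≥ N, ∀ k, avg (fun i => dist (f (ξ (i + k))) (ξ (i + k + 1))) n < δ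

/-- `ξ` is `ε`-shadowed in average by `y`. -/
def AvgShadowed (f : X → X) (ε : ℝ) (ξ : ℕ → X) (y : X) : Prop :=
  limsup (avg fun i => dist (f^[i] y) (ξ i)) atTop < ε

/-- The average shadowing property. -/
def ASP (f : X → X) : Prop :=
  ∀ ε > 0, ∃ δ > 0, ∀ ξ : ℕ → X, AvgPseudoOrbit f δ ξ → ∃ y, AvgShadowed f ε ξ y

/-- The asymptotic average shadowing property. -/
def AASP (f : X → X) : Prop :=
  ∀ ξ : ℕ → X, Tendsto (avg fun i => dist (f (ξ i)) (ξ (i + 1))) atTop (𝓝 0) →
    ∃ y, Tendsto (avg fun i => dist (f^[i] y) (ξ i)) atTop (𝓝 0)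

/-- Mistake functions (with parameter range `(0, ε₀]`, extended by `g(n,ε) = g(n,ε₀)`). -/
structure MistakeFunction where
  g : ℕ → ℝ → ℕ
  ε₀ : ℝ
  pos : 0 < ε₀
  mono : ∀ n ≥ 1, ∀ ε, 0 < ε → ε ≤ ε₀ → g n ε ≤ g (n + 1) ε
  lim : ∀ ε, 0 < ε → ε ≤ ε₀ → Tendsto (fun n : ℕ => (g n ε : ℝ) / n) atTop (𝓝 0)
  ext : ∀ n ε, ε₀ < ε → g n ε = g n ε₀

/-- The set `B_n(g; x, ε)`. -/
def mistakeBall (f : X → X) (G : MistakeFunction) (n : ℕ) (x : X) (ε : ℝ) : Set X :=
  {y | ∃ s : Finset ℕ, s ⊆ Finset.range n ∧ n ≤ s.card + G.g n ε ∧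
    ∀ j ∈ s, dist (f^[j] x) (f^[j] y) < ε}

/-- The almost specification property. -/
def AlmostSpecification (f : X → X) : Prop :=
  ∃ (G : MistakeFunction) (k : ℝ → ℕ), (∀ ε > 0, ∀ n ≥ k ε, G.g n ε < n) ∧
    ∀ m ≥ 1, ∀ (ε : ℕ → ℝ) (x : ℕ → X) (n : ℕ → ℕ),
      (∀ j < m, 0 < ε j ∧ k (ε j) ≤ n j) →
      ∃ z, ∀ j < m, f^[∑ i ∈ Finset.range j, n i] z ∈ mistakeBall f G (n j) (x j) (ε j)

/-- Topological mixing. -/
def TopMixing (f : X → X) : Prop :=
  ∀ U V : Set X, IsOpen U → IsOpen V → U.Nonempty → V.Nonempty →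
    ∃ N, ∀ n ≥ N, (f^[n] '' U ∩ V).Nonempty

/-- The measure center: the complement of the union of the open sets that are null for every
invariant probability measure. -/
def measureCenter [MeasurableSpace X] (f : X → X) : Set X :=
  (⋃₀ {U | IsOpen U ∧ ∀ μ : Measure X, IsProbabilityMeasure μ → MeasurePreserving f μ μ →
    μ U = 0})ᶜ

end defs

variable {X : Type*} [PseudoMetricSpace X]

lemma sum_mul_range (g : ℕ → ℝ) (m L : ℕ) :
    ∑ i ∈ Finset.range (m * L), g i = ∑ j ∈ Finset.range m, ∑ i ∈ Finset.range L, g (j * L + i) := by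
  induction m with
  | zero => simp
  | succ m ih =>
    rw [Nat.succ_mul, Finset.sum_range_add, ih, Finset.sum_range_succ]

/-- the pair property: pairs of points with orbits at average distance at least `c` -/
def Pairs (f : X → X) (c : ℝ) : Prop :=
  ∀ L : ℕ, 0 < L → ∃ x y, c * L ≤ ∑ i ∈ Finset.range L, dist (f^[i] x) (f^[i] y)

/-- block tracing with small average error -/
def Traces (f : X → X) (ε : ℝ) : Prop :=
  ∃ L : ℕ, 0 < L ∧ ∀ q : Bool → X, ∀ m, 0 < m → ∀ w : Fin m → Bool, ∃ z,
    ∑ j : Fin m, ∑ i ∈ Finset.range L, dist (f^[(j : ℕ) * L + i] z) (f^[i] (q (w j)))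
      ≤ ε * (m * L)

/-- the main step -/
theorem entropy_pos_of_traces {f : X → X} {c : ℝ} (hc : 0 < c) (hP : Pairs f c)
    (hT : Traces f (c / 32)) : 0 < coverEntropy f Set.univ := by
  obtain ⟨L, hL, hT⟩ := hT
  obtain ⟨x, y, hxy⟩ := hP L hL
  apply entropy_pos f hL (η := c / 16) (by positivity)
  intro m hm
  choose p hp using hT (fun b => if b then x else y) m hm
  refine ⟨p, fun w w' hw => ?_⟩
  by_contra hcon
  push Not at hcon
  have hL' : (0 : ℝ) < L := by exact_mod_cast hL
  have hm' : (0 : ℝ) < m := by exact_mod_cast hm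
  -- upper bound for the distance of the traced patterns
  have h1 : ∑ j : Fin m, ∑ i ∈ Finset.range L,
      dist (f^[i] (if w j then x else y)) (f^[i] (if w' j then x else y)) ≤ c / 8 * (m * L) := by
    have e1 : ∑ j : Fin m, ∑ i ∈ Finset.range L,
        dist (f^[(j : ℕ) * L + i] (p w)) (f^[(j : ℕ) * L + i] (p w')) ≤ c / 16 * (m * L) := by
      have : ∑ j : Fin m, ∑ i ∈ Finset.range L,
        dist (f^[(j : ℕ) * L + i] (p w)) (f^[(j : ℕ) * L + i] (p w'))
          ≤ ∑ j : Fin m, ∑ i ∈ Finset.range L, c / 16 := by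
        apply Finset.sum_le_sum
        intro j _
        apply Finset.sum_le_sum
        intro i hi
        have hi' := Finset.mem_range.1 hi
        apply (hcon _ _).le
        have := j.2
        nlinarith
      refine this.trans (le_of_eq ?_)
      rw [Finset.sum_const, Finset.sum_const, Finset.card_range, Finset.card_univ,
        Fintype.card_fin, nsmul_eq_mul, nsmul_eq_mul]
      ring
    have e2 := hp w
    have e3 := hp w'
    have e4 : ∑ j : Fin m, ∑ i ∈ Finset.range L,
        dist (f^[i] (if w j then x else y)) (f^[i] (if w' j then x else y)) ≤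
        (∑ j : Fin m, ∑ i ∈ Finset.range L,
          dist (f^[(j : ℕ) * L + i] (p w)) (f^[i] (if w j then x else y))) +
        (∑ j : Fin m, ∑ i ∈ Finset.range L,
          dist (f^[(j : ℕ) * L + i] (p w)) (f^[(j : ℕ) * L + i] (p w'))) +
        (∑ j : Fin m, ∑ i ∈ Finset.range L,
          dist (f^[(j : ℕ) * L + i] (p w')) (f^[i] (if w' j then x else y))) := by
      rw [← Finset.sum_add_distrib, ← Finset.sum_add_distrib]
      apply Finset.sum_le_sum
      intro j _
      rw [← Finset.sum_add_distrib, ← Finset.sum_add_distrib]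
      apply Finset.sum_le_sum
      intro i _
      have t1 := dist_triangle_left (f^[i] (if w j then x else y)) (f^[i] (if w' j then x else y))
        (f^[(j : ℕ) * L + i] (p w))
      have t2 := dist_triangle (f^[(j : ℕ) * L + i] (p w)) (f^[(j : ℕ) * L + i] (p w'))
        (f^[i] (if w' j then x else y))
      linarith
    refine e4.trans ?_
    linarith
  -- lower bound
  have h2 : c * L * hammingDist w w' ≤ ∑ j : Fin m, ∑ i ∈ Finset.range L,
      dist (f^[i] (if w j then x else y)) (f^[i] (if w' j then x else y)) := by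
    have e1 : ∀ j : Fin m, (if w j ≠ w' j then c * L else 0) ≤ ∑ i ∈ Finset.range L,
        dist (f^[i] (if w j then x else y)) (f^[i] (if w' j then x else y)) := by
      intro j
      by_cases hj : w j = w' j
      · rw [if_neg (not_not.2 hj)]
        exact Finset.sum_nonneg fun i _ => dist_nonneg
      · rw [if_pos hj]
        have hxy' : c * L ≤ ∑ i ∈ Finset.range L, dist (f^[i] y) (f^[i] x) := by
          refine hxy.trans (le_of_eq ?_)
          apply Finset.sum_congr rfl
          intro i _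
          exact dist_comm _ _
        cases hwj : w j <;> cases hwj' : w' j
        · exact absurd (hwj.trans hwj'.symm) hj
        · simpa using hxy'
        · simpa using hxy
        · exact absurd (hwj.trans hwj'.symm) hj
    refine le_trans (le_of_eq ?_) (Finset.sum_le_sum fun j _ => e1 j)
    rw [← Finset.sum_filter, Finset.sum_const, nsmul_eq_mul, mul_comm]
    rfl
  have h3 : (m : ℝ) < 8 * hammingDist w w' := by exact_mod_cast hw
  have h4 : c * L * m < 8 * (c * L * hammingDist w w') := by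
    have : 0 < c * L := by positivity
    nlinarith
  nlinarith

end Pool.Agent.Q181.AS
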