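import Pool.Agent.Q181.AS.Shadow

set_option autoImplicit false

namespace Pool.Agent.Q181.AS

open Filter Dynamics Topology MeasureTheory

variable {X : Type*} [PseudoMetricSpace X]

/-- almost specification traces blocks -/
theorem AlmostSpecification.traces {f : X → X} {D : ℝ} (hD0 : 0 < D)
    (hD : ∀ a b : X, dist a b ≤ D) (h : AlmostSpecification f) {ε : ℝ} (hε : 0 < ε) :
    Traces f ε := by
  obtain ⟨G, k, _, h⟩ := h
  have hlim : Tendsto (fun n : ℕ => (G.g n (ε / 2) : ℝ) / n) atTop (𝓝 0) := by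
    rcases le_or_gt (ε / 2) G.ε₀ with h1 | h1
    · exact G.lim _ (half_pos hε) h1
    · simp only [G.ext _ _ h1]
      exact G.lim _ G.pos le_rfl
  have h1 := hlim.eventually (gt_mem_nhds (show 0 < ε / (2 * D) by positivity))
  obtain ⟨L, hL1, hL2, hL3⟩ := (h1.and ((eventually_ge_atTop (k (ε / 2))).and
    (eventually_gt_atTop 0))).exists
  refine ⟨L, hL3, fun q m hm w => ?_⟩
  have hLp : (0 : ℝ) < L := by exact_mod_cast hL3
  have hgL : (G.g L (ε / 2) : ℝ) * D ≤ ε / 2 * L := by
    rw [div_lt_div_iff₀ hLp (by positivity)] at hL1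
    nlinarith
  obtain ⟨z, hz⟩ := h m hm (fun _ => ε / 2) (fun j => if hj : j < m then q (w ⟨j, hj⟩) else q true)
    (fun _ => L) (fun j _ => ⟨half_pos hε, hL2⟩)
  refine ⟨z, ?_⟩
  have hblock : ∀ j : Fin m, ∑ i ∈ Finset.range L, dist (f^[(j : ℕ) * L + i] z) (f^[i] (q (w j)))
      ≤ ε * L := by
    intro j
    obtain ⟨s, hs1, hs2, hs3⟩ := hz j j.2
    simp only [Finset.sum_const, Finset.card_range, smul_eq_mul, j.2, dif_pos] at hs3
    rw [← Finset.sum_sdiff hs1]
    have e1 : ∑ i ∈ s, dist (f^[(j : ℕ) * L + i] z) (f^[i] (q (w j))) ≤ ε / 2 * L := by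
      calc _ ≤ ∑ i ∈ s, ε / 2 := by
            apply Finset.sum_le_sum
            intro i hi
            have := hs3 i hi
            rw [← Function.iterate_add_apply, dist_comm, add_comm i] at this
            exact this.le
        _ = s.card * (ε / 2) := by rw [Finset.sum_const, nsmul_eq_mul]
        _ ≤ L * (ε / 2) := by
            apply mul_le_mul_of_nonneg_right _ (by positivity)
            have := Finset.card_le_card hs1
            rw [Finset.card_range] at this
            exact_mod_cast this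
        _ = ε / 2 * L := by ring
    have e2 : ∑ i ∈ Finset.range L \ s, dist (f^[(j : ℕ) * L + i] z) (f^[i] (q (w j)))
        ≤ ε / 2 * L := by
      calc _ ≤ ∑ i ∈ Finset.range L \ s, D := Finset.sum_le_sum fun i _ => hD _ _
        _ = (Finset.range L \ s).card * D := by rw [Finset.sum_const, nsmul_eq_mul]
        _ ≤ G.g L (ε / 2) * D := by
            apply mul_le_mul_of_nonneg_right _ hD0.le
            have h3 := Finset.card_sdiff_add_card_eq_card hs1
            rw [Finset.card_range] at h3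
            have h4 : (Finset.range L \ s).card ≤ G.g L (ε / 2) := by omega
            exact_mod_cast h4
        _ ≤ ε / 2 * L := hgL
    linarith
  calc _ ≤ ∑ j : Fin m, ε * L := Finset.sum_le_sum fun j _ => hblock j
    _ = ε * (m * L) := by
      rw [Finset.sum_const, Finset.card_univ, Fintype.card_fin, nsmul_eq_mul]; ring

/-- counting the multiples in a window -/
lemma count_dvd {L : ℕ} (k n : ℕ) :
    (∑ i ∈ Finset.range n, if L ∣ i + k + 1 then 1 else 0) + k / L = (k + n) / L := by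
  induction n with
  | zero => simp
  | succ n ih =>
    rw [Finset.sum_range_succ, ← add_assoc, Nat.succ_div, ← ih]
    rw [show n + k + 1 = k + n + 1 by ring]
    ring

lemma count_le {L : ℕ} (hL : 0 < L) (k n : ℕ) :
    ∑ i ∈ Finset.range n, (if L ∣ i + k + 1 then (1 : ℝ) else 0) ≤ n / L + 1 := by
  have h1 := count_dvd (L := L) k n
  have h2 : ∑ i ∈ Finset.range n, (if L ∣ i + k + 1 then (1 : ℝ) else 0)
      = ((∑ i ∈ Finset.range n, if L ∣ i + k + 1 then 1 else 0 : ℕ) : ℝ) := by
    push_cast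
    rfl
  have hLp : (0 : ℝ) < L := by exact_mod_cast hL
  have h3 : (((k + n) / L : ℕ) : ℝ) ≤ ((k + n : ℕ) : ℝ) / L := Nat.cast_div_le
  have h4 : (k : ℝ) / L < ((k / L : ℕ) : ℝ) + 1 := by
    rw [div_lt_iff₀ hLp]
    have := Nat.lt_div_mul_add hL (a := k)
    have h5 : (k : ℝ) < ((k / L * L + L : ℕ) : ℝ) := by exact_mod_cast this
    push_cast at h5
    linarith
  rw [h2]
  have h6 : ((∑ i ∈ Finset.range n, if L ∣ i + k + 1 then 1 else 0 : ℕ) : ℝ) + ((k / L : ℕ) : ℝ)
      = (((k + n) / L : ℕ) : ℝ) := by exact_mod_cast h1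
  have h7 : ((k + n : ℕ) : ℝ) / L = k / L + n / L := by
    push_cast
    rw [add_div]
  linarith

lemma avg_le {a : ℕ → ℝ} {D : ℝ} (hD : 0 ≤ D) (ha : ∀ i, a i ≤ D) (n : ℕ) : avg a n ≤ D := by
  unfold avg
  rcases Nat.eq_zero_or_pos n with rfl | hn
  · simpa using hD
  · have hn' : (0 : ℝ) < n := by exact_mod_cast hn
    rw [one_div, inv_mul_le_iff₀ hn']
    calc _ ≤ ∑ i ∈ Finset.range n, D := Finset.sum_le_sum fun i _ => ha i
      _ = n * D := by rw [Finset.sum_const, Finset.card_range, nsmul_eq_mul]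

lemma avg_nonneg {a : ℕ → ℝ} (ha : ∀ i, 0 ≤ a i) (n : ℕ) : 0 ≤ avg a n := by
  unfold avg
  have := Finset.sum_nonneg (fun i (_ : i ∈ Finset.range n) => ha i)
  positivity

/-- average shadowing traces blocks -/
theorem ASP.traces {f : X → X} {D : ℝ} (hD0 : 0 < D)
    (hD : ∀ a b : X, dist a b ≤ D) (h : ASP f) {ε : ℝ} (hε : 0 < ε) : Traces f ε := by
  obtain ⟨δ, hδ, h⟩ := h ε hε
  obtain ⟨L, hL⟩ := exists_nat_gt (2 * D / δ)
  have hLp : (0 : ℝ) < L := lt_trans (by positivity) hL
  have hL0 : 0 < L := by exact_mod_cast hLp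
  have hDL : D / L < δ / 2 := by
    rw [div_lt_iff₀ hδ] at hL
    rw [div_lt_iff₀ hLp]
    linarith
  refine ⟨L, hL0, fun q m hm w => ?_⟩
  set ξ : ℕ → X := fun i => f^[i % L] (q (w ⟨(i / L) % m, Nat.mod_lt _ hm⟩)) with hξ
  have hpo : AvgPseudoOrbit f δ ξ := by
    refine ⟨L, fun n hn k => ?_⟩
    have hn' : (L : ℝ) ≤ n := by exact_mod_cast hn
    have hnp : (0 : ℝ) < n := lt_of_lt_of_le hLp hn'
    have e1 : ∀ i, dist (f (ξ (i + k))) (ξ (i + k + 1)) ≤ D * (if L ∣ i + k + 1 then 1 else 0) := by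
      intro i
      split_ifs with hdv
      · rw [mul_one]; exact hD _ _
      · rw [mul_zero]
        apply le_of_eq
        have e2 : (i + k + 1) / L = (i + k) / L := by
          rw [Nat.succ_div, if_neg hdv, add_zero]
        have e3 : (i + k + 1) % L = (i + k) % L + 1 := by
          have a1 := Nat.div_add_mod (i + k + 1) L
          have a2 := Nat.div_add_mod (i + k) L
          rw [e2] at a1
          omega
        have e4 : ξ (i + k + 1) = f (ξ (i + k)) := by
          simp only [hξ, e2, e3, Function.iterate_succ_apply']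
        rw [e4, dist_self]
    unfold avg
    calc (1 / (n : ℝ)) * ∑ i ∈ Finset.range n, dist (f (ξ (i + k))) (ξ (i + k + 1))
        ≤ (1 / (n : ℝ)) * (D * (n / L + 1)) := by
          apply mul_le_mul_of_nonneg_left _ (by positivity)
          calc _ ≤ ∑ i ∈ Finset.range n, D * (if L ∣ i + k + 1 then 1 else 0) :=
                Finset.sum_le_sum fun i _ => e1 i
            _ = D * ∑ i ∈ Finset.range n, (if L ∣ i + k + 1 then 1 else 0) := by
                rw [Finset.mul_sum]
            _ ≤ D * (n / L + 1) := mul_le_mul_of_nonneg_left (count_le hL0 k n) hD0.le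
      _ = D / L + D / n := by field_simp
      _ ≤ D / L + D / L := by
          gcongr
      _ < δ := by linarith
  obtain ⟨y, hy⟩ := h ξ hpo
  have hb : ∀ n, avg (fun i => dist (f^[i] y) (ξ i)) n ≤ D :=
    avg_le hD0.le (fun i => hD _ _)
  have hev : ∀ᶠ n in atTop, avg (fun i => dist (f^[i] y) (ξ i)) n < ε :=
    eventually_lt_of_limsup_lt hy (isBoundedUnder_of ⟨D, hb⟩)
  obtain ⟨N, hN⟩ := eventually_atTop.1 hev
  have hmL : 0 < m * L := Nat.mul_pos hm hL0
  have h1 := hN ((N + 1) * (m * L)) (by nlinarith)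
  have hmLr : (0 : ℝ) < ((m * L : ℕ) : ℝ) := by exact_mod_cast hmL
  have h2 : ∑ k ∈ Finset.range (N + 1), ∑ i ∈ Finset.range (m * L),
      dist (f^[k * (m * L) + i] y) (ξ (k * (m * L) + i))
      < ∑ k ∈ Finset.range (N + 1), ε * ((m * L : ℕ) : ℝ) := by
    rw [← sum_mul_range (fun i => dist (f^[i] y) (ξ i)), Finset.sum_const, Finset.card_range,
      nsmul_eq_mul]
    unfold avg at h1
    rw [one_div, inv_mul_lt_iff₀ (by exact_mod_cast (by positivity : 0 < (N + 1) * (m * L)))] at h1
    refine h1.trans_le (le_of_eq ?_)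
    push_cast
    ring
  obtain ⟨k, _, hk⟩ := Finset.exists_lt_of_sum_lt h2
  refine ⟨f^[k * (m * L)] y, ?_⟩
  rw [sum_mul_range] at hk
  rw [Finset.sum_range (fun j => ∑ i ∈ Finset.range L,
    dist (f^[k * (m * L) + (j * L + i)] y) (ξ (k * (m * L) + (j * L + i))))] at hk
  have h3 : ∀ j : Fin m, ∀ i ∈ Finset.range L,
      dist (f^[(j : ℕ) * L + i] (f^[k * (m * L)] y)) (f^[i] (q (w j)))
      = dist (f^[k * (m * L) + ((j : ℕ) * L + i)] y) (ξ (k * (m * L) + ((j : ℕ) * L + i))) := by
    intro j i hi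
    have hi' := Finset.mem_range.1 hi
    have e1 : (k * (m * L) + ((j : ℕ) * L + i)) % L = i := by
      rw [show k * (m * L) + ((j : ℕ) * L + i) = i + L * (k * m + j) by ring,
        Nat.add_mul_mod_self_left, Nat.mod_eq_of_lt hi']
    have e2 : (k * (m * L) + ((j : ℕ) * L + i)) / L % m = j := by
      rw [show k * (m * L) + ((j : ℕ) * L + i) = i + L * (k * m + j) by ring,
        Nat.add_mul_div_left _ _ hL0, Nat.div_eq_of_lt hi', zero_add,
        show k * m + (j : ℕ) = j + k * m by ring, Nat.add_mul_mod_self_right,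
        Nat.mod_eq_of_lt j.2]
    have e3 : ξ (k * (m * L) + ((j : ℕ) * L + i)) = f^[i] (q (w j)) := by
      simp only [hξ, e1, e2]
    rw [e3, ← Function.iterate_add_apply, add_comm ((j : ℕ) * L + i)]
  calc ∑ j : Fin m, ∑ i ∈ Finset.range L,
        dist (f^[(j : ℕ) * L + i] (f^[k * (m * L)] y)) (f^[i] (q (w j)))
      = ∑ j : Fin m, ∑ i ∈ Finset.range L,
        dist (f^[k * (m * L) + ((j : ℕ) * L + i)] y) (ξ (k * (m * L) + ((j : ℕ) * L + i))) := by
        apply Finset.sum_congr rfl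
        intro j _
        exact Finset.sum_congr rfl (h3 j)
    _ ≤ ε * ((m * L : ℕ) : ℝ) := hk.le
    _ = ε * (m * L) := by push_cast; ring

end Pool.Agent.Q181.AS
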